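import Pool.Agent.H386.LG.Pt

set_option autoImplicit false

/-! Energies of affine images and of sets with few representations; lower bound for the singular
series. -/

namespace Pool.Agent.H386.LG

open Finset Pool.Agent.H560R3.GB

/-- The number of representations of `t` as an ordered sum of `h` elements of `A`. -/
noncomputable def rep (h : ℕ) (A : Set ℕ) (t : ℕ) : ℕ :=
  {v : Fin h → ℕ | (∀ i, v i ∈ A) ∧ ∑ i, v i = t}.ncard

lemma energy_affine (h x : ℕ) (a : ℕ → ℤ) (s : ℕ → ℕ) (c M : ℤ) (hc : c ≠ 0)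
    (hs : ∀ m ∈ Icc 1 x, (s m : ℤ) = c * a m + M) :
    Pool.Agent.H373R2.T7.energy h x (fun m => (s m : ℤ)) = Pool.Agent.H373R2.T7.energy h x a := by
  unfold Pool.Agent.H373R2.T7.energy
  congr 1
  apply filter_congr
  intro q hq
  rw [mem_product, Fintype.mem_piFinset, Fintype.mem_piFinset] at hq
  have e1 : ∀ v : Fin h → ℕ, (∀ i, v i ∈ Icc 1 x) → ∑ i, (s (v i) : ℤ) = c * ∑ i, a (v i) + h * M := by
    intro v hv
    rw [sum_congr rfl (fun i _ => hs (v i) (hv i)), sum_add_distrib, ← mul_sum]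
    simp
  change (∑ i, ((s (q.1 i) : ℕ) : ℤ) = ∑ i, ((s (q.2 i) : ℕ) : ℤ)) ↔ _
  rw [e1 _ hq.1, e1 _ hq.2]
  constructor
  · intro h1
    exact mul_left_cancel₀ hc (by linarith)
  · intro h1
    rw [h1]

lemma energy_rep (h x J : ℕ) (A : Finset ℕ) (b : ℕ → ℕ) (hb : Set.BijOn b (Icc 1 x : Finset ℕ) A)
    (hJ : ∀ t, rep h A t ≤ J) :
    Pool.Agent.H373R2.T7.energy h x (fun m => (b m : ℤ)) ≤ x ^ h * J := by
  unfold Pool.Agent.H373R2.T7.energy
  rw [card_filter, sum_product]
  calc ∑ v ∈ Fintype.piFinset fun _ : Fin h => Icc 1 x, ∑ w ∈ Fintype.piFinset fun _ : Fin h => Icc 1 x,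
        (if ∑ i, (b (v i) : ℤ) = ∑ i, (b (w i) : ℤ) then 1 else 0) ≤
      ∑ _v ∈ Fintype.piFinset fun _ : Fin h => Icc 1 x, J := by
        apply sum_le_sum
        intro v _
        rw [← card_filter]
        refine le_trans ?_ (hJ (∑ i, b (v i)))
        unfold rep
        rw [← Set.ncard_coe_finset]
        have hfin : {v' : Fin h → ℕ | (∀ i, v' i ∈ (A : Set ℕ)) ∧ ∑ i, v' i = ∑ i, b (v i)}.Finite := by
          apply Set.Finite.subset (Set.Finite.pi' (fun _ : Fin h => A.finite_toSet))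
          intro w hw
          exact hw.1
        apply Set.ncard_le_ncard_of_injOn (fun w i => b (w i)) _ _ hfin
        · intro w hw
          simp only [coe_filter, Fintype.mem_piFinset, Set.mem_ofPred_eq] at hw ⊢
          refine ⟨fun i => hb.mapsTo (by exact_mod_cast hw.1 i), ?_⟩
          have := hw.2
          exact_mod_cast this.symm
        · intro w hw w' hw' hww
          simp only [coe_filter, Fintype.mem_piFinset, Set.mem_ofPred_eq] at hw hw'
          funext i
          exact hb.injOn (by exact_mod_cast hw.1 i) (by exact_mod_cast hw'.1 i) (congrFun hww i)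
    _ = x ^ h * J := by
        rw [sum_const, Fintype.card_piFinset, prod_const, card_univ, Fintype.card_fin, Nat.card_Icc,
          smul_eq_mul, Nat.add_sub_cancel]


lemma sing_ge_one (n : ℕ) : 1 ≤ sing n := by
  have hC : 1 / 2 ≤ C₂ := by
    have := C₂_ge 2 le_rfl
    rw [PP_two] at this
    norm_num at this ⊢
    linarith
  have hP : 1 ≤ ∏ p ∈ n.primeFactors.filter (fun p => 2 < p), ((p : ℝ) - 1) / ((p : ℝ) - 2) := by
    calc (1 : ℝ) = ∏ _p ∈ n.primeFactors.filter (fun p => 2 < p), (1 : ℝ) := by simp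
      _ ≤ _ := by
        apply prod_le_prod (fun _ _ => zero_le_one)
        intro p hp
        rw [mem_filter] at hp
        have : (2 : ℝ) < p := by exact_mod_cast hp.2
        rw [le_div_iff₀ (by linarith)]
        linarith
  unfold sing
  nlinarith

/-- a prime in every long interval -/
lemma prime_in (n N U Y H : ℕ) (hL : 8 ≤ Real.log N) (hN : 0 < N)
    (hH : N / Real.log N ^ U ≤ H)
    (h1 : |Wp n Y - sing n * Y| ≤ N / Real.log N ^ (U + 1))
    (h2 : |Wp n (Y + H) - sing n * (Y + H : ℕ)| ≤ N / Real.log N ^ (U + 1)) :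
    ∃ q, Y < q ∧ q ≤ Y + H ∧ q.Prime ∧ (n - q).Prime := by
  by_contra hcon
  push Not at hcon
  have hN' : (0 : ℝ) < N := by exact_mod_cast hN
  have e : Wp n (Y + H) = Wp n Y := by
    unfold Wp
    congr 1
    ext q
    simp only [mem_filter, mem_Icc]
    constructor
    · rintro ⟨⟨b1, b2⟩, b3, b4⟩
      refine ⟨⟨b1, ?_⟩, b3, b4⟩
      by_contra hc
      exact hcon q (by omega) b2 b3 b4
    · rintro ⟨⟨b1, b2⟩, b3, b4⟩
      exact ⟨⟨b1, by omega⟩, b3, b4⟩
  rw [e] at h2
  set L := Real.log (N : ℝ) with hLd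
  have hL0 : 0 < L := by linarith
  have hS := sing_ge_one n
  have h3 : sing n * H ≤ 2 * (N / L ^ (U + 1)) := by
    have h4 : sing n * H = (Wp n Y - sing n * Y) - (Wp n Y - sing n * (Y + H : ℕ)) := by
      push_cast
      ring
    rw [h4]
    have := (abs_le.1 h1).2
    have := (abs_le.1 h2).1
    linarith
  have h5 : (H : ℝ) ≤ sing n * H := le_mul_of_one_le_left (Nat.cast_nonneg _) hS
  have h6 : (N : ℝ) / L ^ U = L * (N / L ^ (U + 1)) := by
    rw [pow_succ]
    field_simp
  have h7 : 0 < (N : ℝ) / L ^ (U + 1) := by positivity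
  have h8 : 8 * (N / L ^ (U + 1)) ≤ L * (N / L ^ (U + 1)) := mul_le_mul_of_nonneg_right hL h7.le
  linarith

end Pool.Agent.H386.LG
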