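import Pool.Agent.H560R3.GB.Fin

set_option autoImplicit false
set_option maxHeartbeats 4000000

/-! Localised weighted Goldbach counts along families of nearly minimal energy. -/

namespace Pool.Agent.H386.LG

open Finset Pool.Agent.H373R2.T7 Pool.Agent.H560R3.GB
open ArithmeticFunction (vonMangoldt)

noncomputable def Rl (n Y : ℕ) : ℝ := ∑ a ∈ Icc 1 (min Y (n - 1)), vonMangoldt a * vonMangoldt (n - a)

noncomputable def Rzl (z n Y : ℕ) : ℝ := ∑ a ∈ Icc 1 (min Y (n - 1)), vonMangoldt a * lamz z (n - a)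

lemma main_loc (E U : ℕ) : ∃ n0 : ℕ, ∀ n Y z : ℕ, n0 ≤ Y → Y ≤ n - 1 → 1 ≤ z → (z : ℝ) ≤ Real.log Y ^ E →
    |Rzl z n Y - Y * Tz z n| ≤ (Vz z)⁻¹ * (Y / Real.log Y ^ U) := by
  classical
  obtain ⟨n0, h0⟩ := sys_main 1 E U le_rfl
  refine ⟨n0, fun n Y z hn hYn hz1 hz2 => ?_⟩
  have h := h0 Y hn z hz1 hz2 (Qg n) (perA n)
  have hV : 0 < (Vz z)⁻¹ := inv_pos.2 (Vz_pos z)
  have e1 : Rzl z n Y = (Vz z)⁻¹ * ∑ a ∈ (Icc 1 Y).filter (fun a : ℕ => ∀ p ∈ pz z, ¬ Qg n p a), vonMangoldt a := by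
    unfold Rzl
    rw [min_eq_left hYn, mul_sum, sum_filter]
    apply sum_congr rfl
    intro a ha
    rw [mem_Icc] at ha
    have hiff : (∀ p ∈ pz z, ¬ p ∣ (n - a)) ↔ ∀ p ∈ pz z, ¬ Qg n p a := by
      have : ∀ p : ℕ, (p ∣ (n - a)) ↔ Qg n p a := by
        intro p
        unfold Qg
        rw [← Int.natCast_dvd_natCast, Nat.cast_sub (by omega)]
      simp only [this]
    unfold lamz
    by_cases hc : ∀ p ∈ pz z, ¬ p ∣ (n - a)
    · rw [if_pos hc, if_pos (hiff.1 hc), mul_comm]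
    · rw [if_neg hc, if_neg (fun h => hc (hiff.2 h)), mul_zero]
  have e2 : Rzl z n Y - Y * Tz z n = (Vz z)⁻¹ *
      (∑ a ∈ (Icc 1 Y).filter (fun a : ℕ => ∀ p ∈ pz z, ¬ Qg n p a), vonMangoldt a -
        Y * ∏ p ∈ pz z, (1 - (rhoA (Qg n) p : ℝ) / (p - 1 : ℝ))) := by
    rw [e1]
    unfold Tz
    ring
  rw [e2, abs_mul, abs_of_pos hV]
  exact mul_le_mul_of_nonneg_left h hV.le

lemma swap_loc (N n Y z : ℕ) (hn : n ≤ N) :
    ∑ a ∈ Icc 1 N, (if a ≤ Y then (vonMangoldt a : ℝ) else 0) * (lamI ((n : ℤ) - a) - lamzI z ((n : ℤ) - a)) =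
      Rl n Y - Rzl z n Y := by
  unfold Rl Rzl
  rw [← sum_sub_distrib]
  symm
  have hsub : Icc 1 (min Y (n - 1)) ⊆ Icc 1 N := Icc_subset_Icc le_rfl (by omega)
  rw [← sum_subset hsub]
  · apply sum_congr rfl
    intro a ha
    rw [mem_Icc] at ha
    unfold lamI lamzI
    have h1 : (1 : ℤ) ≤ (n : ℤ) - a := by omega
    have h2 : ((n : ℤ) - a).toNat = n - a := by omega
    rw [if_pos h1, if_pos h1, h2, if_pos (by omega : a ≤ Y)]
    ring
  · intro a ha hna
    rw [mem_Icc] at ha hna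
    by_cases hY : a ≤ Y
    · unfold lamI lamzI
      have h1 : ¬ (1 : ℤ) ≤ (n : ℤ) - a := by omega
      rw [if_neg h1, if_neg h1]
      ring
    · rw [if_neg hY, zero_mul]

/-- the first moment of the error, uniformly in `Y` -/
theorem l1_loc (p C U : ℕ) :
    ∃ B0 : ℕ, ∀ E : ℕ, ∃ N0 : ℕ, ∀ N : ℕ, N0 ≤ N → ∀ (x : ℕ) (s : ℕ → ℕ),
    (∀ m ∈ Icc 1 x, 1 ≤ s m ∧ s m ≤ N) →
    (Pool.Agent.H373R2.T7.energy p x (fun m => (s m : ℤ)) : ℝ) * N ≤ Real.log N ^ C * (x : ℝ) ^ (2 * p) →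
    ∀ z : ℕ, Real.log N ^ B0 ≤ z → (z : ℝ) ≤ Real.log N ^ E → ∀ Y : ℕ,
    ∑ m ∈ Icc 1 x, |Rl (s m) Y - Rzl z (s m) Y| ≤ N * x / Real.log N ^ U := by
  obtain ⟨B0, hB0⟩ := lam_e p 1 C (U + 1)
  refine ⟨B0, fun E => ?_⟩
  obtain ⟨N1, h1⟩ := hB0 E
  refine ⟨max N1 3, fun N hN x s hs hE z hz1 hz2 Y => ?_⟩
  have hN1 : N1 ≤ N := (le_max_left _ _).trans hN
  have hN3 : 3 ≤ N := (le_max_right _ _).trans hN
  have hNr : (3 : ℝ) ≤ N := by exact_mod_cast hN3
  have hL0 : 0 < Real.log N := Real.log_pos (by linarith)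
  have key := h1 N hN1 x (fun m => (s m : ℤ) - ((N : ℤ) + 1)) (by
    intro m hm
    have := hs m hm
    push_cast
    rw [abs_le]
    constructor <;> omega) (by rw [energy_shift]; exact hE) N (by omega) z hz1 hz2
    (fun a => if (1 ≤ a ∧ a ≤ N) ∧ N + 1 - a ≤ Y then ((vonMangoldt (N + 1 - a) / Real.log N : ℝ) : ℂ) else 0) (by
      intro a
      split_ifs with h
      · rw [Complex.norm_real, Real.norm_of_nonneg (div_nonneg ArithmeticFunction.vonMangoldt_nonneg hL0.le),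
          div_le_one hL0]
        refine ArithmeticFunction.vonMangoldt_le_log.trans ?_
        apply Real.log_le_log
        · have : 1 ≤ N + 1 - a := by omega
          exact_mod_cast this
        · have : N + 1 - a ≤ N := by omega
          exact_mod_cast this
      · simp)
  have e : ∀ m ∈ Icc 1 x, ‖∑ a ∈ Icc 1 N, (if (1 ≤ a ∧ a ≤ N) ∧ N + 1 - a ≤ Y then ((vonMangoldt (N + 1 - a) / Real.log N : ℝ) : ℂ) else 0) *
      ((lamI (a + ((s m : ℤ) - ((N : ℤ) + 1))) - lamzI z (a + ((s m : ℤ) - ((N : ℤ) + 1))) : ℝ) : ℂ)‖ =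
      |Rl (s m) Y - Rzl z (s m) Y| / Real.log N := by
    intro m hm
    have h2 : ∑ a ∈ Icc 1 N, (if (1 ≤ a ∧ a ≤ N) ∧ N + 1 - a ≤ Y then ((vonMangoldt (N + 1 - a) / Real.log N : ℝ) : ℂ) else 0) *
      ((lamI (a + ((s m : ℤ) - ((N : ℤ) + 1))) - lamzI z (a + ((s m : ℤ) - ((N : ℤ) + 1))) : ℝ) : ℂ) =
      (((Rl (s m) Y - Rzl z (s m) Y) / Real.log N : ℝ) : ℂ) := by
      rw [← swap_loc N (s m) Y z (hs m hm).2, sum_div]
      push_cast
      apply sum_nbij' (fun a => N + 1 - a) (fun a => N + 1 - a)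
      · intro a ha
        rw [mem_Icc] at ha ⊢
        omega
      · intro a ha
        rw [mem_Icc] at ha ⊢
        omega
      · intro a ha
        rw [mem_Icc] at ha
        omega
      · intro a ha
        rw [mem_Icc] at ha
        omega
      · intro a ha
        rw [mem_Icc] at ha
        have h3 : (a : ℤ) + ((s m : ℤ) - ((N : ℤ) + 1)) = (s m : ℤ) - ((N + 1 - a : ℕ) : ℤ) := by omega
        rw [h3]
        by_cases hY : N + 1 - a ≤ Y
        · rw [if_pos ⟨ha, hY⟩, if_pos hY]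
          push_cast
          ring
        · rw [if_neg (fun h => hY h.2), if_neg hY]
          simp
    rw [h2, Complex.norm_real, Real.norm_eq_abs, abs_div, abs_of_pos hL0]
  rw [sum_congr rfl e, ← sum_div, div_le_iff₀ hL0] at key
  refine key.trans (le_of_eq ?_)
  rw [pow_succ]
  field_simp

lemma Tz_le (z n : ℕ) : Tz z n ≤ (Vz z)⁻¹ := by
  unfold Tz
  have hV : 0 < (Vz z)⁻¹ := inv_pos.2 (Vz_pos z)
  refine (mul_le_mul_of_nonneg_left ?_ hV.le).trans (le_of_eq (mul_one _))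
  apply prod_le_one
  · intro p hp
    have hpp : p.Prime := by
      unfold pz at hp
      simp only [mem_filter] at hp
      tauto
    have h2 : (2 : ℝ) ≤ p := by exact_mod_cast hpp.two_le
    rw [rho_eq n p hpp, sub_nonneg, div_le_one (by linarith)]
    split_ifs <;> push_cast <;> linarith
  · intro p hp
    have hpp : p.Prime := by
      unfold pz at hp
      simp only [mem_filter] at hp
      tauto
    have h2 : (2 : ℝ) ≤ p := by exact_mod_cast hpp.two_le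
    have : (0 : ℝ) ≤ (rhoA (Qg n) p : ℝ) / (p - 1 : ℝ) := div_nonneg (Nat.cast_nonneg _) (by linarith)
    linarith

/-- moving `Y` by at most `H` -/
lemma move (n N Y Y' : ℕ) (hn : n ≤ N) (hN : 1 ≤ N) (hY : Y' ≤ Y) :
    |Rl n Y - Rl n Y'| ≤ (Y - Y' : ℕ) * Real.log N ^ 2 := by
  have h0 : 0 ≤ Real.log N := Real.log_nonneg (by exact_mod_cast hN)
  unfold Rl
  have hsub : Icc 1 (min Y' (n - 1)) ⊆ Icc 1 (min Y (n - 1)) := Icc_subset_Icc le_rfl (by omega)
  rw [← sum_sdiff hsub, add_sub_cancel_right, abs_of_nonneg (sum_nonneg fun a _ =>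
    mul_nonneg ArithmeticFunction.vonMangoldt_nonneg ArithmeticFunction.vonMangoldt_nonneg)]
  have hle : ∀ a : ℕ, a ≤ N → vonMangoldt a ≤ Real.log N := by
    intro a ha
    rcases Nat.eq_zero_or_pos a with h | h
    · rw [h]; simpa using h0
    · refine ArithmeticFunction.vonMangoldt_le_log.trans ?_
      apply Real.log_le_log
      · exact_mod_cast h
      · exact_mod_cast ha
  calc ∑ a ∈ Icc 1 (min Y (n - 1)) \ Icc 1 (min Y' (n - 1)), vonMangoldt a * vonMangoldt (n - a)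
      ≤ ∑ _a ∈ Icc 1 (min Y (n - 1)) \ Icc 1 (min Y' (n - 1)), Real.log N ^ 2 := by
        apply sum_le_sum
        intro a ha
        rw [mem_sdiff, mem_Icc] at ha
        rw [pow_two]
        exact mul_le_mul (hle a (by omega)) (hle (n - a) (by omega)) ArithmeticFunction.vonMangoldt_nonneg h0
    _ = (Icc 1 (min Y (n - 1)) \ Icc 1 (min Y' (n - 1))).card * Real.log N ^ 2 := by
        rw [sum_const, nsmul_eq_mul]
    _ ≤ (Y - Y' : ℕ) * Real.log N ^ 2 := by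
        apply mul_le_mul_of_nonneg_right _ (by positivity)
        rw [card_sdiff_of_subset hsub, Nat.card_Icc, Nat.card_Icc]
        exact_mod_cast (by omega : min Y (n - 1) + 1 - 1 - (min Y' (n - 1) + 1 - 1) ≤ Y - Y')

end Pool.Agent.H386.LG
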