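import Pool.Agent.H386.LG.Loc

set_option autoImplicit false
set_option maxHeartbeats 4000000

/-! The localised Goldbach asymptotics for almost all members of a family. -/

namespace Pool.Agent.H386.LG

open Finset Pool.Agent.H373R2.T7 Pool.Agent.H560R3.GB
open ArithmeticFunction (vonMangoldt)

/-- The sum of `log p log (n - p)` over the primes `p ≤ Y` for which `n - p` is prime. -/
noncomputable def Wp (n Y : ℕ) : ℝ :=
  ∑ p ∈ (Icc 1 Y).filter (fun p => p.Prime ∧ (n - p).Prime), Real.log p * Real.log (n - p : ℕ)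

lemma lam_le (N a : ℕ) (hN : 1 ≤ N) (ha : a ≤ N) : vonMangoldt a ≤ Real.log N := by
  have h0 : 0 ≤ Real.log N := Real.log_nonneg (by exact_mod_cast hN)
  rcases Nat.eq_zero_or_pos a with h | h
  · rw [h]; simpa using h0
  · refine ArithmeticFunction.vonMangoldt_le_log.trans ?_
    apply Real.log_le_log
    · exact_mod_cast h
    · exact_mod_cast ha

lemma rl_wp (n N Y : ℕ) (hn1 : 1 ≤ n) (hn : n ≤ N) (hY : Y < n) :
    |Rl n Y - Wp n Y| ≤ 4 * √(N : ℝ) * Real.log N ^ 2 := by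
  have hN : 1 ≤ N := by omega
  have h0 : 0 ≤ Real.log N := Real.log_nonneg (by exact_mod_cast hN)
  have e1 : Wp n Y = ∑ a ∈ Icc 1 Y, lp a * lp (n - a) := by
    unfold Wp
    rw [sum_filter]
    apply sum_congr rfl
    intro a _
    unfold Pool.Agent.H560R3.GB.lp
    by_cases h1 : a.Prime
    · by_cases h2 : (n - a).Prime
      · rw [if_pos ⟨h1, h2⟩, if_pos h1, if_pos h2, ArithmeticFunction.vonMangoldt_apply_prime h1,
          ArithmeticFunction.vonMangoldt_apply_prime h2]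
      · rw [if_neg (fun h => h2 h.2), if_neg h2, mul_zero]
    · rw [if_neg (fun h => h1 h.1), if_neg h1, zero_mul]
  have e2 : Rl n Y = ∑ a ∈ Icc 1 Y, vonMangoldt a * vonMangoldt (n - a) := by
    unfold Rl
    rw [min_eq_left (by omega)]
  rw [e1, e2, ← sum_sub_distrib]
  have hd : ∀ a : ℕ, 0 ≤ vonMangoldt a - lp a := fun a => sub_nonneg.2 (lp_le a)
  have hsn : ∑ a ∈ range (n + 1), (vonMangoldt a - lp a) ≤ 2 * √(N : ℝ) * Real.log N := by
    refine (sum_pp n hn1).trans ?_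
    have h3 : √(n : ℝ) ≤ √(N : ℝ) := Real.sqrt_le_sqrt (by exact_mod_cast hn)
    have h4 : Real.log n ≤ Real.log N := Real.log_le_log (by exact_mod_cast hn1) (by exact_mod_cast hn)
    have h5 : 0 ≤ Real.log n := Real.log_nonneg (by exact_mod_cast hn1)
    exact mul_le_mul (by linarith) h4 h5 (by positivity)
  have s1 : ∑ a ∈ Icc 1 Y, (vonMangoldt a - lp a) ≤ ∑ a ∈ range (n + 1), (vonMangoldt a - lp a) := by
    apply sum_le_sum_of_subset_of_nonneg
    · intro a ha
      rw [mem_Icc] at ha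
      rw [mem_range]
      omega
    · intro a _ _
      exact hd a
  have s2 : ∑ a ∈ Icc 1 Y, (vonMangoldt (n - a) - lp (n - a)) ≤ ∑ a ∈ range (n + 1), (vonMangoldt a - lp a) := by
    have e3 : ∑ a ∈ Icc 1 Y, (vonMangoldt (n - a) - lp (n - a)) =
        ∑ b ∈ Icc (n - Y) (n - 1), (vonMangoldt b - lp b) := by
      apply sum_nbij' (fun a => n - a) (fun b => n - b)
      · intro a ha
        rw [mem_Icc] at ha ⊢
        omega
      · intro a ha
        rw [mem_Icc] at ha ⊢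
        omega
      · intro a ha
        rw [mem_Icc] at ha
        omega
      · intro a ha
        rw [mem_Icc] at ha
        omega
      · intro a _
        rfl
    rw [e3]
    apply sum_le_sum_of_subset_of_nonneg
    · intro a ha
      rw [mem_Icc] at ha
      rw [mem_range]
      omega
    · intro a _ _
      exact hd a
  have hb : ∀ a ∈ Icc 1 Y, vonMangoldt a * vonMangoldt (n - a) - lp a * lp (n - a) ≤
      Real.log N * (vonMangoldt a - lp a) + Real.log N * (vonMangoldt (n - a) - lp (n - a)) := by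
    intro a ha
    rw [mem_Icc] at ha
    have a1 := lam_le N (n - a) hN (by omega)
    have a2 := (lp_le a).trans (lam_le N a hN (by omega))
    have a3 := hd a
    have a4 := hd (n - a)
    have a5 := lp_nonneg a
    nlinarith [mul_le_mul_of_nonneg_right a1 a3, mul_le_mul_of_nonneg_right a2 a4]
  have hnn : ∀ a ∈ Icc 1 Y, 0 ≤ vonMangoldt a * vonMangoldt (n - a) - lp a * lp (n - a) := by
    intro a _
    rw [sub_nonneg]
    exact mul_le_mul (lp_le a) (lp_le _) (lp_nonneg _) ArithmeticFunction.vonMangoldt_nonneg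
  rw [abs_of_nonneg (sum_nonneg hnn)]
  calc ∑ a ∈ Icc 1 Y, (vonMangoldt a * vonMangoldt (n - a) - lp a * lp (n - a)) ≤
      ∑ a ∈ Icc 1 Y, (Real.log N * (vonMangoldt a - lp a) + Real.log N * (vonMangoldt (n - a) - lp (n - a))) :=
        sum_le_sum hb
    _ = Real.log N * ∑ a ∈ Icc 1 Y, (vonMangoldt a - lp a) +
        Real.log N * ∑ a ∈ Icc 1 Y, (vonMangoldt (n - a) - lp (n - a)) := by
        rw [sum_add_distrib, mul_sum, mul_sum]
    _ ≤ Real.log N * (2 * √(N : ℝ) * Real.log N) + Real.log N * (2 * √(N : ℝ) * Real.log N) :=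
        add_le_add (mul_le_mul_of_nonneg_left (s1.trans hsn) h0) (mul_le_mul_of_nonneg_left (s2.trans hsn) h0)
    _ = 4 * √(N : ℝ) * Real.log N ^ 2 := by ring

/-- the statement for a single member -/
lemma point (U B1 : ℕ) : ∃ N0 : ℕ, ∀ N : ℕ, N0 ≤ N → ∀ n z H : ℕ, Even n → 1 ≤ n → n ≤ N →
    (Real.log N ^ (U + 3)) ^ 2 ≤ z → (z : ℝ) ≤ Real.log N ^ B1 → H = ⌊(N : ℝ) / Real.log N ^ (U + 4)⌋₊ →
    (∀ j ≤ N / H, |Rl n (j * H) - Rzl z n (j * H)| ≤ N / Real.log N ^ (U + 1)) →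
    ∀ Y < n, |Wp n Y - sing n * Y| ≤ N / Real.log N ^ U := by
  obtain ⟨n0, h0⟩ := main_loc (B1 + 1) (U + 4)
  obtain ⟨n1, e1⟩ := ev_L' (2 ^ (B1 + 1) + 2 ^ (U + 4) + 16)
  obtain ⟨n2, e2⟩ := ev_log' (U + 4) 4
  obtain ⟨n3, e3⟩ := Vz_inv_small B1
  obtain ⟨n4, e4⟩ := ev_log' 0 (n0 + 4)
  refine ⟨n1 + n2 + n3 + n4 + 3, fun N hN n z H hev hn1 hnN hz1 hz2 hH hgrid Y hY => ?_⟩
  have a1 := e1 N (by omega)
  have a2 := e2 N (by omega)
  have a4 := e4 N (by omega)
  rw [pow_zero, mul_one] at a4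
  have hN3 : (3 : ℝ) ≤ N := by exact_mod_cast (by omega : 3 ≤ N)
  have hN0 : (0 : ℝ) < N := by linarith
  set L := Real.log (N : ℝ) with hLd
  have hp1 : (0 : ℝ) < 2 ^ (B1 + 1) := by positivity
  have hp2 : (0 : ℝ) < 2 ^ (U + 4) := by positivity
  have hL16 : 16 ≤ L := by linarith
  have hL1 : 1 ≤ L := by linarith
  have hL0 : 0 < L := by linarith
  have hn0' : (0 : ℝ) ≤ n0 := Nat.cast_nonneg _
  have hs0 : 0 < √(N : ℝ) := Real.sqrt_pos.2 hN0
  have hss : √(N : ℝ) * √(N : ℝ) = N := Real.mul_self_sqrt hN0.le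
  -- the unit of error
  set δ : ℝ := N / L ^ (U + 2) with hδ
  have hδ0 : 0 < δ := by positivity
  have hz0 : 1 ≤ z := by
    have h5 : (1 : ℝ) ≤ (L ^ (U + 3)) ^ 2 := one_le_pow₀ (one_le_pow₀ hL1)
    exact_mod_cast h5.trans hz1
  have hV := e3 N (by omega) z hz0 hz2
  have hV0 : 0 < (Vz z)⁻¹ := inv_pos.2 (Vz_pos z)
  have hTL : Tz z n ≤ L := (Tz_le z n).trans hV
  have hLp : L ≤ L ^ (U + 3) := by
    calc L = L ^ 1 := (pow_one L).symm
      _ ≤ L ^ (U + 3) := pow_le_pow_right₀ hL1 (by omega)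
  have hlogn : Real.log n ≤ L := Real.log_le_log (by exact_mod_cast hn1) (by exact_mod_cast hnN)
  obtain ⟨hs1, hT1⟩ := sing_close z n (L ^ (U + 3)) hev hn1 (hlogn.trans hLp) (by linarith) hz1
  set T := Tz z n with hT
  have hY0 : (0 : ℝ) ≤ Y := Nat.cast_nonneg _
  have hYN : (Y : ℝ) ≤ N := by exact_mod_cast (by omega : Y ≤ N)
  -- the step
  have hHle : (H : ℝ) ≤ N / L ^ (U + 4) := by rw [hH]; exact Nat.floor_le (by positivity)
  have hbig : 4 * √(N : ℝ) ≤ N / L ^ (U + 4) := by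
    rw [le_div_iff₀ (by positivity)]
    calc 4 * √(N : ℝ) * L ^ (U + 4) = √(N : ℝ) * (4 * L ^ (U + 4)) := by ring
      _ ≤ √(N : ℝ) * √(N : ℝ) := mul_le_mul_of_nonneg_left a2 hs0.le
      _ = N := hss
  have hs1' : 1 ≤ √(N : ℝ) := by linarith
  have hHge : √(N : ℝ) ≤ H := by
    have h5 : (N : ℝ) / L ^ (U + 4) < H + 1 := by rw [hH]; exact Nat.lt_floor_add_one _
    linarith
  have hHpos : 0 < H := by
    have : (0 : ℝ) < H := by linarith
    exact_mod_cast this
  set j := Y / H with hj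
  set Y' := j * H with hY'
  have hY'Y : Y' ≤ Y := Nat.div_mul_le_self Y H
  have hdiff : Y - Y' ≤ H := by
    have h5 := Nat.div_add_mod Y H
    have h6 := Nat.mod_lt Y hHpos
    have h7 : Y' = H * (Y / H) := by rw [hY', hj, mul_comm]
    omega
  have hjN : j ≤ N / H := Nat.div_le_div_right (by omega)
  have g1 := hgrid j hjN
  rw [← hY'] at g1
  have hY'r : (Y' : ℝ) ≤ Y := by exact_mod_cast hY'Y
  have hY'0 : (0 : ℝ) ≤ Y' := Nat.cast_nonneg _
  have hdr : ((Y - Y' : ℕ) : ℝ) ≤ N / L ^ (U + 4) := by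
    have : ((Y - Y' : ℕ) : ℝ) ≤ H := by exact_mod_cast hdiff
    linarith
  have hdr2 : (Y : ℝ) - Y' ≤ N / L ^ (U + 4) := by
    rw [← Nat.cast_sub hY'Y]; exact hdr
  -- 1. move
  have m1 : |Rl n Y - Rl n Y'| ≤ δ := by
    refine (move n N Y Y' hnN (by omega) hY'Y).trans ?_
    calc ((Y - Y' : ℕ) : ℝ) * L ^ 2 ≤ N / L ^ (U + 4) * L ^ 2 := mul_le_mul_of_nonneg_right hdr (by positivity)
      _ = δ := by
          rw [hδ, show U + 4 = (U + 2) + 2 by ring, pow_add]
          field_simp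
  -- 2. main term at Y'
  have m2 : |Rzl z n Y' - Y' * T| ≤ δ := by
    rcases Nat.eq_zero_or_pos Y' with h5 | h5
    · have : Rzl z n Y' = 0 := by
        unfold Rzl
        rw [h5]
        simp
      rw [this, h5]
      simp only [Nat.cast_zero, zero_mul, sub_zero, abs_zero]
      exact hδ0.le
    · have hY'H : H ≤ Y' := by
        have : 0 < j := Nat.pos_of_mul_pos_right (hY' ▸ h5) |> fun h => by
          rcases Nat.eq_zero_or_pos j with h6 | h6
          · exfalso; rw [hY', h6, zero_mul] at h5; exact lt_irrefl _ h5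
          · exact h6
        exact Nat.le_mul_of_pos_left H this
      have hY's : √(N : ℝ) ≤ Y' := hHge.trans (by exact_mod_cast hY'H)
      have hY'pos : (0 : ℝ) < Y' := by linarith
      have hlog1 : L / 2 ≤ Real.log Y' := by
        have h6 := Real.log_le_log hs0 hY's
        rwa [Real.log_sqrt hN0.le] at h6
      set l := Real.log (Y' : ℝ) with hl
      have hl0 : 0 < l := by linarith
      have hn0Y : n0 ≤ Y' := by
        have : (n0 : ℝ) ≤ Y' := by linarith
        exact_mod_cast this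
      have h2l : L ≤ 2 * l := by linarith
      have hzl : (z : ℝ) ≤ l ^ (B1 + 1) := by
        calc (z : ℝ) ≤ L ^ B1 := hz2
          _ ≤ (2 * l) ^ B1 := pow_le_pow_left₀ hL0.le h2l _
          _ = 2 ^ B1 * l ^ B1 := mul_pow _ _ _
          _ ≤ l * l ^ B1 := by
              apply mul_le_mul_of_nonneg_right _ (by positivity)
              have : (2 : ℝ) ^ (B1 + 1) = 2 * 2 ^ B1 := by ring
              linarith
          _ = l ^ (B1 + 1) := by ring
      refine (h0 n Y' z hn0Y (by omega) hz0 hzl).trans ?_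
      have h6 : (Y' : ℝ) / l ^ (U + 4) ≤ N * L / L ^ (U + 4) := by
        rw [div_le_div_iff₀ (by positivity) (by positivity)]
        calc (Y' : ℝ) * L ^ (U + 4) ≤ N * (2 * l) ^ (U + 4) :=
              mul_le_mul (hY'r.trans hYN) (pow_le_pow_left₀ hL0.le h2l _) (by positivity) hN0.le
          _ = N * (2 ^ (U + 4) * l ^ (U + 4)) := by rw [mul_pow]
          _ ≤ N * (L * l ^ (U + 4)) := by
              apply mul_le_mul_of_nonneg_left _ hN0.le
              apply mul_le_mul_of_nonneg_right (by linarith) (by positivity)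
          _ = N * L * l ^ (U + 4) := by ring
      calc (Vz z)⁻¹ * ((Y' : ℝ) / l ^ (U + 4)) ≤ L * (N * L / L ^ (U + 4)) :=
            mul_le_mul hV h6 (by positivity) hL0.le
        _ = δ := by
            rw [hδ, show U + 4 = (U + 2) + 2 by ring, pow_add]
            field_simp
  -- 3. from Y' to Y in the main term
  have m3 : |(Y' : ℝ) * T - Y * T| ≤ δ := by
    have h5 : (Y' : ℝ) * T - Y * T = -((Y - Y') * T) := by ring
    rw [h5, abs_neg, abs_of_nonneg (mul_nonneg (by linarith) (by linarith))]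
    calc ((Y : ℝ) - Y') * T ≤ N / L ^ (U + 4) * L := mul_le_mul hdr2 hTL (by linarith) (by positivity)
      _ ≤ N / L ^ (U + 4) * L ^ 2 := by
          apply mul_le_mul_of_nonneg_left _ (by positivity)
          nlinarith
      _ = δ := by
          rw [hδ, show U + 4 = (U + 2) + 2 by ring, pow_add]
          field_simp
  -- 4. singular series
  have m4 : |(Y : ℝ) * T - sing n * Y| ≤ 8 * δ := by
    have h5 : (Y : ℝ) * T - sing n * Y = -(Y * (sing n - T)) := by ring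
    rw [h5, abs_neg, abs_mul, abs_of_nonneg hY0]
    calc (Y : ℝ) * |sing n - T| ≤ N * (8 / L ^ (U + 3) * L) := by
          apply mul_le_mul hYN _ (abs_nonneg _) hN0.le
          refine hs1.trans ?_
          exact mul_le_mul_of_nonneg_left hTL (by positivity)
      _ = 8 * δ := by
          rw [hδ, show U + 3 = (U + 2) + 1 by ring, pow_succ L (U + 2)]
          field_simp
  -- 5. prime powers
  have m5 : |Wp n Y - Rl n Y| ≤ δ := by
    rw [abs_sub_comm]
    refine (rl_wp n N Y hn1 hnN hY).trans ?_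
    calc 4 * √(N : ℝ) * L ^ 2 ≤ N / L ^ (U + 4) * L ^ 2 := mul_le_mul_of_nonneg_right hbig (by positivity)
      _ = δ := by
          rw [hδ, show U + 4 = (U + 2) + 2 by ring, pow_add]
          field_simp
  have hfin : Wp n Y - sing n * Y = (Wp n Y - Rl n Y) + (Rl n Y - Rl n Y') + (Rl n Y' - Rzl z n Y') +
      (Rzl z n Y' - Y' * T) + ((Y' : ℝ) * T - Y * T) + ((Y : ℝ) * T - sing n * Y) := by ring
  have hg : (N : ℝ) / L ^ (U + 1) = δ * L := by
    rw [hδ, pow_succ L (U + 1)]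
    field_simp
  have hg2 : (N : ℝ) / L ^ U = δ * L * L := by
    rw [hδ, pow_succ L (U + 1), pow_succ L U]
    field_simp
  rw [hg] at g1
  rw [hg2, hfin]
  refine (abs_add_le _ _).trans ?_
  refine (add_le_add (abs_add_le _ _) le_rfl).trans ?_
  refine (add_le_add (add_le_add (abs_add_le _ _) le_rfl) le_rfl).trans ?_
  refine (add_le_add (add_le_add (add_le_add (abs_add_le _ _) le_rfl) le_rfl) le_rfl).trans ?_
  refine (add_le_add (add_le_add (add_le_add (add_le_add (abs_add_le _ _) le_rfl) le_rfl) le_rfl) le_rfl).trans ?_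
  have hδL : 16 * δ ≤ δ * L := by nlinarith
  have hδL0 : 0 < δ * L := by positivity
  have hδLL : 16 * (δ * L) ≤ δ * L * L := by nlinarith
  linarith

/-- The localised asymptotics for almost all members. -/
theorem loc_main (h C U : ℕ) :
    ∃ N₀ : ℕ, ∀ N : ℕ, N₀ ≤ N → ∀ (x : ℕ) (s : ℕ → ℕ),
      (∀ m ∈ Icc 1 x, Even (s m) ∧ 1 ≤ s m ∧ s m ≤ N) →
      (Pool.Agent.H373R2.T7.energy h x (fun m => (s m : ℤ)) : ℝ) * N ≤ Real.log N ^ C * (x : ℝ) ^ (2 * h) →
      ∃ S : Finset ℕ, (S.card : ℝ) ≤ x / Real.log N ^ U ∧ ∀ m ∈ Icc 1 x, m ∉ S →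
        ∀ Y < s m, |Wp (s m) Y - sing (s m) * Y| ≤ N / Real.log N ^ U := by
  classical
  obtain ⟨B0, hB0⟩ := l1_loc h C ((U + 5) + (U + 1) + U)
  set B1 : ℕ := max B0 ((U + 3) * 2) with hB1
  obtain ⟨n1, h1⟩ := hB0 (B1 + 1)
  obtain ⟨n2, h2⟩ := point U (B1 + 1)
  obtain ⟨n3, h3⟩ := ev_L' 8
  obtain ⟨n4, h4⟩ := ev_log' (U + 4) 4
  refine ⟨n1 + n2 + n3 + n4 + 3, fun N hN x s hs hE => ?_⟩
  have hL := h3 N (by omega)
  have a2 := h4 N (by omega)
  have hN3 : (3 : ℝ) ≤ N := by exact_mod_cast (by omega : 3 ≤ N)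
  have hN0 : (0 : ℝ) < N := by linarith
  set L := Real.log (N : ℝ) with hLd
  have hL1 : 1 ≤ L := by linarith
  have hL0 : 0 < L := by linarith
  have hs0 : 0 < √(N : ℝ) := Real.sqrt_pos.2 hN0
  have hss : √(N : ℝ) * √(N : ℝ) = N := Real.mul_self_sqrt hN0.le
  obtain ⟨z, hz⟩ : ∃ z, z = ⌈L ^ B1⌉₊ := ⟨_, rfl⟩
  have hz1 : L ^ B1 ≤ z := by rw [hz]; exact Nat.le_ceil _
  have hz2 : (z : ℝ) ≤ L ^ (B1 + 1) := by
    have h5 : (z : ℝ) < L ^ B1 + 1 := by rw [hz]; exact Nat.ceil_lt_add_one (by positivity)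
    have h6 : 1 ≤ L ^ B1 := one_le_pow₀ hL1
    calc (z : ℝ) ≤ L ^ B1 + 1 := h5.le
      _ ≤ L ^ B1 * 2 := by linarith
      _ ≤ L ^ B1 * L := mul_le_mul_of_nonneg_left (by linarith) (by positivity)
      _ = L ^ (B1 + 1) := by rw [pow_succ]
  have hzB0 : L ^ B0 ≤ z := (pow_le_pow_right₀ hL1 (le_max_left _ _)).trans hz1
  have hz22 : (L ^ (U + 3)) ^ 2 ≤ z := by
    rw [← pow_mul]
    exact (pow_le_pow_right₀ hL1 (le_max_right _ _)).trans hz1
  have hmom := h1 N (by omega) x s (fun m hm => (hs m hm).2) hE z hzB0 hz2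
  obtain ⟨H, hH⟩ : ∃ H, H = ⌊(N : ℝ) / L ^ (U + 4)⌋₊ := ⟨_, rfl⟩
  have hbig : 4 * √(N : ℝ) ≤ N / L ^ (U + 4) := by
    rw [le_div_iff₀ (by positivity)]
    calc 4 * √(N : ℝ) * L ^ (U + 4) = √(N : ℝ) * (4 * L ^ (U + 4)) := by ring
      _ ≤ √(N : ℝ) * √(N : ℝ) := mul_le_mul_of_nonneg_left a2 hs0.le
      _ = N := hss
  have hs1' : 1 ≤ √(N : ℝ) := by
    rw [Real.one_le_sqrt]
    linarith
  have hHge : (N : ℝ) / L ^ (U + 4) / 2 ≤ H := by
    have h5 : (N : ℝ) / L ^ (U + 4) < H + 1 := by rw [hH]; exact Nat.lt_floor_add_one _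
    linarith
  have hHpos : (0 : ℝ) < H := lt_of_lt_of_le (by positivity) hHge
  set τ : ℝ := N / L ^ (U + 1) with hτ
  have hτ0 : 0 < τ := by positivity
  set Bad : ℕ → Finset ℕ := fun j => (Icc 1 x).filter
    (fun m => τ < |Rl (s m) (j * H) - Rzl z (s m) (j * H)|) with hBad
  have hxr : (0 : ℝ) ≤ x := Nat.cast_nonneg _
  have hc : ∀ j, ((Bad j).card : ℝ) ≤ x / L ^ ((U + 5) + U) := by
    intro j
    have h5 : ((Bad j).card : ℝ) * τ ≤ ∑ m ∈ Icc 1 x, |Rl (s m) (j * H) - Rzl z (s m) (j * H)| := by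
      calc ((Bad j).card : ℝ) * τ = ∑ _m ∈ Bad j, τ := by rw [sum_const, nsmul_eq_mul]
        _ ≤ ∑ m ∈ Bad j, |Rl (s m) (j * H) - Rzl z (s m) (j * H)| :=
            sum_le_sum fun m hm => (mem_filter.1 hm).2.le
        _ ≤ _ := sum_le_sum_of_subset_of_nonneg (filter_subset _ _) fun _ _ _ => abs_nonneg _
    have h6 := h5.trans (hmom (j * H))
    rw [← le_div_iff₀ hτ0] at h6
    refine h6.trans (le_of_eq ?_)
    rw [hτ, show (U + 5) + (U + 1) + U = ((U + 5) + U) + (U + 1) by ring, pow_add L ((U + 5) + U) (U + 1)]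
    field_simp
  refine ⟨(range (N / H + 1)).biUnion Bad, ?_, ?_⟩
  · have hnum : ((N / H + 1 : ℕ) : ℝ) ≤ L ^ (U + 5) := by
      push_cast
      have h5 : ((N / H : ℕ) : ℝ) ≤ N / H := Nat.cast_div_le
      have h6 : (N : ℝ) / H ≤ 2 * L ^ (U + 4) := by
        rw [div_le_iff₀ hHpos]
        have h7 : (N : ℝ) = 2 * L ^ (U + 4) * (N / L ^ (U + 4) / 2) := by field_simp
        calc (N : ℝ) = 2 * L ^ (U + 4) * (N / L ^ (U + 4) / 2) := h7
          _ ≤ 2 * L ^ (U + 4) * H := mul_le_mul_of_nonneg_left hHge (by positivity)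
      have h8 : (1 : ℝ) ≤ L ^ (U + 4) := one_le_pow₀ hL1
      calc ((N / H : ℕ) : ℝ) + 1 ≤ 3 * L ^ (U + 4) := by linarith
        _ ≤ L * L ^ (U + 4) := mul_le_mul_of_nonneg_right (by linarith) (by positivity)
        _ = L ^ (U + 5) := by rw [show U + 5 = (U + 4) + 1 by ring, pow_succ]; ring
    calc (((range (N / H + 1)).biUnion Bad).card : ℝ) ≤ ∑ j ∈ range (N / H + 1), ((Bad j).card : ℝ) := by
          exact_mod_cast card_biUnion_le
      _ ≤ ∑ _j ∈ range (N / H + 1), x / L ^ ((U + 5) + U) := sum_le_sum fun j _ => hc j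
      _ = ((N / H + 1 : ℕ) : ℝ) * (x / L ^ ((U + 5) + U)) := by
          rw [sum_const, card_range, nsmul_eq_mul]
      _ ≤ L ^ (U + 5) * (x / L ^ ((U + 5) + U)) := mul_le_mul_of_nonneg_right hnum (by positivity)
      _ = x / L ^ U := by
          rw [pow_add L (U + 5) U]
          field_simp
  · intro m hm hmS
    apply h2 N (by omega) (s m) z H (hs m hm).1 (hs m hm).2.1 (hs m hm).2.2 hz22 hz2 hH
    intro j hj
    by_contra hcon
    apply hmS
    rw [mem_biUnion]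
    exact ⟨j, mem_range.2 (by omega), mem_filter.2 ⟨hm, lt_of_not_ge hcon⟩⟩

end Pool.Agent.H386.LG
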